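import Mathlib
import Pool.Agent.N290.RI.Stm
import Pool.Agent.N290.RI.Un

/-!
# The involution of the ball: derivative and invariance of the metric (`C6`)
-/

set_option autoImplicit false

open Complex MeasureTheory Set Filter Topology

namespace Pool.Agent.N887.RI

open Pool.Agent.N290.RI

theorem c6_sq (z : ℂ) : ‖z‖ ^ 2 = z.re ^ 2 + z.im ^ 2 := by
  rw [← Complex.normSq_eq_norm_sq, Complex.normSq_apply]; ring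

theorem c6_pol (x : ℝ) (q a : ℂ) :
    ‖q + x * a‖ ^ 2 - ‖a + x * q‖ ^ 2 = (1 - x ^ 2) * (‖q‖ ^ 2 - ‖a‖ ^ 2) := by
  simp only [c6_sq, Complex.add_re, Complex.add_im, Complex.mul_re, Complex.mul_im,
    Complex.ofReal_re, Complex.ofReal_im]
  ring

theorem c6_lag (z ξ : ℂ × ℂ) : N ξ * N z = ‖ip ξ z‖ ^ 2 + ‖ξ.1 * z.2 - ξ.2 * z.1‖ ^ 2 := by
  simp only [N, ip, c6_sq, Complex.add_re, Complex.add_im, Complex.sub_re, Complex.sub_im,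
    Complex.mul_re, Complex.mul_im, Complex.conj_re, Complex.conj_im]
  ring

theorem c6_len2 {z : ℂ × ℂ} (hz : N z < 1) (ξ : ℂ × ℂ) :
    len2 z ξ = (N ξ - ‖ξ.1 * z.2 - ξ.2 * z.1‖ ^ 2) / (1 - N z) ^ 2 := by
  have h1 : 1 - N z ≠ 0 := (sub_pos.2 hz).ne'
  have h2 := c6_lag z ξ
  unfold len2
  rw [div_add_div _ _ h1 (pow_ne_zero 2 h1), div_eq_div_iff (mul_ne_zero h1 (pow_ne_zero 2 h1))
    (pow_ne_zero 2 h1)]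
  have h3 : ‖ξ.1 * z.2 - ξ.2 * z.1‖ ^ 2 = N ξ * N z - ‖ip ξ z‖ ^ 2 := by linarith
  rw [h3]
  ring

theorem c6_u {x : ℝ} (h0 : 0 ≤ x) (h1 : x < 1) {ξ : ℂ × ℂ} (hξ : ξ ∈ B) :
    (1 - (x : ℂ) * ξ.1) ≠ 0 := by
  intro h
  have h2 : (x : ℂ) * ξ.1 = 1 := (sub_eq_zero.1 h).symm
  have h3 : x * ‖ξ.1‖ = 1 := by
    have := congrArg norm h2
    rwa [norm_mul, Complex.norm_real, Real.norm_of_nonneg h0, norm_one] at this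
  have h4 : ‖ξ.1‖ ^ 2 < 1 := by
    have : N ξ < 1 := hξ
    unfold N at this
    nlinarith [sq_nonneg ‖ξ.2‖]
  have h5 : ‖ξ.1‖ < 1 := by
    nlinarith [norm_nonneg ξ.1]
  nlinarith [norm_nonneg ξ.1]

theorem c6_one {x : ℝ} (h0 : 0 ≤ x) (h1 : x < 1) {ξ : ℂ × ℂ} (hξ : ξ ∈ B) :
    1 - N (Ph x ξ) = (1 - x ^ 2) * (1 - N ξ) / ‖1 - x * ξ.1‖ ^ 2 := by
  have hu := c6_u h0 h1 hξ
  have hs : Real.sqrt (1 - x ^ 2) ^ 2 = 1 - x ^ 2 := Real.sq_sqrt (by nlinarith)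
  have hu2 : ‖1 - (x : ℂ) * ξ.1‖ ^ 2 ≠ 0 := pow_ne_zero 2 (norm_ne_zero_iff.2 hu)
  rw [eq_div_iff hu2]
  have h2 : ‖1 - (x : ℂ) * ξ.1‖ ^ 2 - ‖(x : ℂ) - ξ.1‖ ^ 2 = (1 - x ^ 2) * (1 - ‖ξ.1‖ ^ 2) := by
    simp only [c6_sq, Complex.sub_re, Complex.sub_im, Complex.mul_re, Complex.mul_im,
      Complex.ofReal_re, Complex.ofReal_im, Complex.one_re, Complex.one_im]
    ring
  have h3 : N (Ph x ξ) * ‖1 - (x : ℂ) * ξ.1‖ ^ 2 =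
      ‖(x : ℂ) - ξ.1‖ ^ 2 + (1 - x ^ 2) * ‖ξ.2‖ ^ 2 := by
    unfold N Ph
    simp only [norm_div, norm_neg, norm_mul, Complex.norm_real, Real.norm_of_nonneg
      (Real.sqrt_nonneg _), div_pow, mul_pow, hs]
    field_simp
  rw [sub_mul, h3]
  unfold N
  linarith

theorem c6_mem {x : ℝ} (h0 : 0 ≤ x) (h1 : x < 1) {ξ : ℂ × ℂ} (hξ : ξ ∈ B) : N (Ph x ξ) < 1 := by
  have h2 := c6_one h0 h1 hξ
  have hu := c6_u h0 h1 hξ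
  have h3 : 0 < (1 - x ^ 2) * (1 - N ξ) / ‖1 - (x : ℂ) * ξ.1‖ ^ 2 := by
    have : 0 < 1 - N ξ := sub_pos.2 hξ
    have : 0 < 1 - x ^ 2 := by nlinarith
    have : 0 < ‖1 - (x : ℂ) * ξ.1‖ := norm_pos_iff.2 hu
    positivity
  linarith

theorem c6_line {x : ℝ} (h0 : 0 ≤ x) (h1 : x < 1) {ξ : ℂ × ℂ} (hξ : ξ ∈ B) (η : ℂ × ℂ) :
    HasDerivAt (fun t : ℂ => Ph x (ξ + t • η)) (dPh x ξ η) 0 := by
  have hu := c6_u h0 h1 hξ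
  have e1 : HasDerivAt (fun t : ℂ => ξ.1 + t * η.1) η.1 0 := by
    simpa using ((hasDerivAt_id (0 : ℂ)).mul_const η.1).const_add ξ.1
  have e2 : HasDerivAt (fun t : ℂ => ξ.2 + t * η.2) η.2 0 := by
    simpa using ((hasDerivAt_id (0 : ℂ)).mul_const η.2).const_add ξ.2
  have e3 : HasDerivAt (fun t : ℂ => 1 - (x : ℂ) * (ξ.1 + t * η.1)) (-(x * η.1)) 0 :=
    (e1.const_mul (x : ℂ)).const_sub 1
  have e4 : HasDerivAt (fun t : ℂ => (x : ℂ) - (ξ.1 + t * η.1)) (-η.1) 0 := e1.const_sub (x : ℂ)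
  have e5 : HasDerivAt (fun t : ℂ => -((Real.sqrt (1 - x ^ 2) : ℂ) * (ξ.2 + t * η.2)))
      (-((Real.sqrt (1 - x ^ 2) : ℂ) * η.2)) 0 := (e2.const_mul _).neg
  have hu' : (1 - (x : ℂ) * (ξ.1 + 0 * η.1)) ≠ 0 := by simpa using hu
  have f1 : HasDerivAt (fun t : ℂ => ((x : ℂ) - (ξ.1 + t * η.1)) / (1 - (x : ℂ) * (ξ.1 + t * η.1)))
      _ 0 := e4.div e3 hu'
  have f2 : HasDerivAt (fun t : ℂ => (-((Real.sqrt (1 - x ^ 2) : ℂ) * (ξ.2 + t * η.2))) /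
      (1 - (x : ℂ) * (ξ.1 + t * η.1))) _ 0 := e5.div e3 hu'
  have f3 := f1.prodMk f2
  have g : (fun t : ℂ => Ph x (ξ + t • η)) = fun t : ℂ =>
      (((x : ℂ) - (ξ.1 + t * η.1)) / (1 - (x : ℂ) * (ξ.1 + t * η.1)),
        (-((Real.sqrt (1 - x ^ 2) : ℂ) * (ξ.2 + t * η.2))) / (1 - (x : ℂ) * (ξ.1 + t * η.1))) := by
    funext t
    simp [Ph]
  rw [g]
  refine f3.congr_deriv ?_
  unfold dPh
  simp only [zero_mul, add_zero]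
  congr 1
  · field_simp
    ring
  · field_simp
    ring

theorem c6_diff {x : ℝ} (h0 : 0 ≤ x) (h1 : x < 1) {ξ : ℂ × ℂ} (hξ : ξ ∈ B) :
    DifferentiableAt ℂ (Ph x) ξ := by
  have hu := c6_u h0 h1 hξ
  unfold Ph
  have d1 : DifferentiableAt ℂ (fun ξ : ℂ × ℂ => (x : ℂ) - ξ.1) ξ := by fun_prop
  have d2 : DifferentiableAt ℂ (fun ξ : ℂ × ℂ => 1 - (x : ℂ) * ξ.1) ξ := by fun_prop
  have d3 : DifferentiableAt ℂ (fun ξ : ℂ × ℂ => -((Real.sqrt (1 - x ^ 2) : ℂ) * ξ.2)) ξ := by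
    fun_prop
  have d4 : DifferentiableAt ℂ (fun ξ : ℂ × ℂ => (1 - (x : ℂ) * ξ.1)⁻¹) ξ := d2.fun_inv hu
  simp only [div_eq_mul_inv]
  exact (d1.fun_mul d4).prodMk (d3.fun_mul d4)

theorem c6_fderiv {x : ℝ} (h0 : 0 ≤ x) (h1 : x < 1) {ξ : ℂ × ℂ} (hξ : ξ ∈ B) (η : ℂ × ℂ) :
    fderiv ℂ (Ph x) ξ η = dPh x ξ η := by
  have h2 := (c6_diff h0 h1 hξ).hasFDerivAt
  have h3 : HasDerivAt (fun t : ℂ => ξ + t • η) η 0 := by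
    simpa using ((hasDerivAt_id (0 : ℂ)).smul_const η).const_add ξ
  have h4 : HasFDerivAt (Ph x) (fderiv ℂ (Ph x) ξ) ((fun t : ℂ => ξ + t • η) 0) := by
    simpa using h2
  have h5 := h4.comp_hasDerivAt (0 : ℂ) h3
  exact h5.unique (c6_line h0 h1 hξ η)

theorem c6_len {x : ℝ} (h0 : 0 ≤ x) (h1 : x < 1) {ξ : ℂ × ℂ} (hξ : ξ ∈ B) (η : ℂ × ℂ) :
    len (Ph x ξ) (dPh x ξ η) = len ξ η := by
  have hu := c6_u h0 h1 hξ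
  have hs : Real.sqrt (1 - x ^ 2) ^ 2 = 1 - x ^ 2 := Real.sq_sqrt (by nlinarith)
  have hsc : ((Real.sqrt (1 - x ^ 2) : ℝ) : ℂ) ^ 2 = 1 - (x : ℂ) ^ 2 := by
    rw [← Complex.ofReal_pow, hs]; push_cast; ring
  unfold len
  congr 1
  rw [c6_len2 (c6_mem h0 h1 hξ), c6_len2 hξ, c6_one h0 h1 hξ]
  have hs0 : 0 ≤ Real.sqrt (1 - x ^ 2) := Real.sqrt_nonneg _
  set s : ℝ := Real.sqrt (1 - x ^ 2) with hsdef
  set u : ℂ := 1 - (x : ℂ) * ξ.1 with hudef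
  have hu0 : ‖u‖ ≠ 0 := norm_ne_zero_iff.2 hu
  -- the determinant
  have hdet : (dPh x ξ η).1 * (Ph x ξ).2 - (dPh x ξ η).2 * (Ph x ξ).1 =
      (s : ℂ) * ((ξ.2 * η.1 - ξ.1 * η.2) + x * η.2) / u ^ 2 := by
    simp only [dPh, Ph, ← hsdef, ← hudef]
    have h3 : -((1 - (x : ℂ) ^ 2) * η.1) / u ^ 2 * (-((s : ℂ) * ξ.2) / u) -
        -((s : ℂ) * (η.2 / u + x * ξ.2 * η.1 / u ^ 2)) * ((x - ξ.1) / u) =
        (s : ℂ) * ((1 - (x : ℂ) ^ 2) * η.1 * ξ.2 + (u * η.2 + x * ξ.2 * η.1) * (x - ξ.1)) /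
          u ^ 3 := by
      field_simp
      ring
    rw [h3]
    have h4 : (1 - (x : ℂ) ^ 2) * η.1 * ξ.2 + (u * η.2 + x * ξ.2 * η.1) * (x - ξ.1) =
        u * ((ξ.2 * η.1 - ξ.1 * η.2) + x * η.2) := by
      rw [hudef]; ring
    rw [h4]
    field_simp
  have hN : N (dPh x ξ η) = (1 - x ^ 2) * ((1 - x ^ 2) * ‖η.1‖ ^ 2 +
      ‖η.2 + x * (ξ.2 * η.1 - ξ.1 * η.2)‖ ^ 2) / ‖u‖ ^ 4 := by
    have h3 : (dPh x ξ η).2 = -((s : ℂ) * (η.2 + x * (ξ.2 * η.1 - ξ.1 * η.2)) / u ^ 2) := by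
      simp only [dPh, ← hsdef, ← hudef]
      have : η.2 / u + x * ξ.2 * η.1 / u ^ 2 =
          (η.2 + x * (ξ.2 * η.1 - ξ.1 * η.2)) / u ^ 2 := by
        rw [div_add_div _ _ hu (pow_ne_zero 2 hu), div_eq_div_iff (mul_ne_zero hu
          (pow_ne_zero 2 hu)) (pow_ne_zero 2 hu)]
        rw [hudef]; ring
      rw [this]
      ring
    have h4 : (dPh x ξ η).1 = -(((s : ℂ) ^ 2 * η.1) / u ^ 2) := by
      simp only [dPh, ← hudef]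
      rw [hsc]; ring
    unfold N
    rw [h3, h4]
    simp only [norm_neg, norm_div, norm_mul, norm_pow, Complex.norm_real, Real.norm_of_nonneg
      hs0, div_pow, mul_pow, hs]
    field_simp
  rw [hdet, hN]
  have hd2 : ‖(s : ℂ) * ((ξ.2 * η.1 - ξ.1 * η.2) + x * η.2) / u ^ 2‖ ^ 2 =
      (1 - x ^ 2) * ‖(ξ.2 * η.1 - ξ.1 * η.2) + x * η.2‖ ^ 2 / ‖u‖ ^ 4 := by
    simp only [norm_div, norm_mul, norm_pow, Complex.norm_real, Real.norm_of_nonneg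
      hs0, div_pow, mul_pow, hs]
    ring
  rw [hd2]
  have hpol := c6_pol x η.2 (ξ.2 * η.1 - ξ.1 * η.2)
  have hsw : ‖η.1 * ξ.2 - η.2 * ξ.1‖ ^ 2 = ‖ξ.2 * η.1 - ξ.1 * η.2‖ ^ 2 := by
    congr 2; ring
  rw [hsw]
  have hNη : N η = ‖η.1‖ ^ 2 + ‖η.2‖ ^ 2 := rfl
  have h1x : (1 - x ^ 2) ≠ 0 := by nlinarith
  have h1ξ : (1 - N ξ) ≠ 0 := (sub_pos.2 hξ).ne'
  rw [← sub_div, ← mul_sub, div_pow, div_div_div_eq]
  have hk : (1 - x ^ 2) * ‖η.1‖ ^ 2 + ‖η.2 + x * (ξ.2 * η.1 - ξ.1 * η.2)‖ ^ 2 -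
      ‖ξ.2 * η.1 - ξ.1 * η.2 + x * η.2‖ ^ 2 =
      (1 - x ^ 2) * (N η - ‖ξ.2 * η.1 - ξ.1 * η.2‖ ^ 2) := by
    rw [hNη]; linarith
  rw [hk]
  rw [div_eq_div_iff (mul_ne_zero (pow_ne_zero 4 hu0) (pow_ne_zero 2 (mul_ne_zero h1x h1ξ)))
    (pow_ne_zero 2 h1ξ)]
  ring

theorem c6_ip {x : ℝ} (h0 : 0 ≤ x) (h1 : x < 1) {ξ : ℂ × ℂ} (hξ : ξ ∈ B) :
    1 - ip ((x : ℂ), 0) (Ph x ξ) = (1 - x ^ 2) / starRingEnd ℂ (1 - x * ξ.1) := by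
  have hu := c6_u h0 h1 hξ
  have hu' : starRingEnd ℂ (1 - (x : ℂ) * ξ.1) ≠ 0 := by
    rwa [Ne, map_eq_zero]
  rw [eq_div_iff hu']
  unfold ip Ph
  simp only [zero_mul, add_zero, map_div₀]
  rw [sub_mul, one_mul, mul_assoc, div_mul_cancel₀ _ hu']
  simp only [map_sub, map_mul, map_one, Complex.conj_ofReal]
  ring

theorem t_C6 : C6 := by
  intro x h0 h1 ξ hξ
  refine ⟨c6_diff h0 h1 hξ, fun η => c6_fderiv h0 h1 hξ η, c6_one h0 h1 hξ,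
    fun η => c6_len h0 h1 hξ η, c6_ip h0 h1 hξ, ?_⟩
  unfold Dl
  have hx : N ((x : ℂ), (0 : ℂ)) = x ^ 2 := by
    unfold N
    simp
  rw [c6_ip h0 h1 hξ, c6_one h0 h1 hξ, hx, norm_div, RCLike.norm_conj]
  have h3 : ‖(1 : ℂ) - (x : ℂ) ^ 2‖ = 1 - x ^ 2 := by
    have : (1 : ℂ) - (x : ℂ) ^ 2 = ((1 - x ^ 2 : ℝ) : ℂ) := by push_cast; ring
    rw [this, Complex.norm_real, Real.norm_of_nonneg (by nlinarith)]
  rw [h3]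
  ring

end Pool.Agent.N887.RI
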